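import Mathlib

/-!
Unit-distance graphs over real algebraic fields.
-/

set_option autoImplicit false

namespace Pool.Agent.Results.MP_8b8716_co.ThreeValue

open Complex

/-- The unit-distance graph on `F × F`, for a subfield `F` of the reals. -/
def unitDistGraph (F : IntermediateField ℚ ℝ) : SimpleGraph (F × F) where
  Adj p q := (p.1 - q.1) ^ 2 + (p.2 - q.2) ^ 2 = 1
  symm := ⟨by
    intro p q h
    rw [← h]; ring⟩
  loopless := ⟨by
    intro p h
    simp at h⟩



/-- Horner lemma: partial sums of an integer polynomial relation are algebraic integers. -/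
lemma horner {K : Type*} [Field K] (p : Polynomial ℤ) (x : K) (hx : Polynomial.aeval x p = 0) (k : ℕ) :
    IsIntegral ℤ (∑ i ∈ Finset.Ioc k p.natDegree, (p.coeff i : K) * x ^ (i - k)) := by
  have h1 : IsIntegral (Subring.closure (∅ : Set K)) (∑ i ∈ Finset.Ioc k p.natDegree, (p.coeff i : K) * x ^ (i - k)) := by
    have h2 : (∑ i ∈ Finset.Ioc k p.natDegree, (p.coeff i : K) * x ^ (i - k)) ∈ 
      (⨅ V : {V : ValuationSubring K // (∅ : Set K) ⊆ V.toSubring}, V.1.toSubring) := by
      rw [Subring.mem_iInf]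
      rintro ⟨V, hV⟩
      show _ ∈ V.toSubring
      rcases V.mem_or_inv_mem x with h | h
      · refine sum_mem fun i _ => mul_mem (intCast_mem _ _) (pow_mem h _)
      · by_cases hx0 : x = 0
        · subst hx0
          refine sum_mem fun i _ => mul_mem (intCast_mem _ _) (pow_mem (zero_mem _) _)
        have h3 : (∑ i ∈ Finset.Ioc k p.natDegree, (p.coeff i : K) * x ^ (i - k)) = 
          - ∑ i ∈ Finset.range (k+1) , (p.coeff i : K) * (x⁻¹) ^ (k - i) := by
          rw [Polynomial.aeval_eq_sum_range] at hx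
          have h4 : x ^ k * (∑ i ∈ Finset.Ioc k p.natDegree, (p.coeff i : K) * x ^ (i - k)) = ∑ i ∈ Finset.Ioc k p.natDegree, (p.coeff i : K) * x ^ i := by
            rw [Finset.mul_sum]
            refine Finset.sum_congr rfl fun i hi => ?_
            rw [Finset.mem_Ioc] at hi
            obtain ⟨j, rfl⟩ := Nat.exists_eq_add_of_lt hi.1
            rw [show k + j + 1 - k = j + 1 by omega]
            ring
          have h5 : x ^ k * (∑ i ∈ Finset.range (k+1) , (p.coeff i : K) * (x⁻¹) ^ (k - i)) = ∑ i ∈ Finset.range (k+1), (p.coeff i : K) * x ^ i := by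
            rw [Finset.mul_sum]
            refine Finset.sum_congr rfl fun i hi => ?_
            rw [Finset.mem_range] at hi
            obtain ⟨j, rfl⟩ := Nat.exists_eq_add_of_le (Nat.lt_succ_iff.mp hi)
            rw [show i + j - i = j by omega, pow_add, inv_pow]
            field_simp
          have h6 : (∑ i ∈ Finset.range (k+1), (p.coeff i : K) * x ^ i) + ∑ i ∈ Finset.Ioc k p.natDegree, (p.coeff i : K) * x ^ i = 0 := by
            by_cases hk : k ≤ p.natDegree
            · rw [← hx]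
              rw [← Finset.sum_union]
              · have : Finset.range (k+1) ∪ Finset.Ioc k p.natDegree = Finset.range (p.natDegree + 1) := by
                  ext i; simp only [Finset.mem_union, Finset.mem_range, Finset.mem_Ioc]; omega
                rw [this]
                refine Finset.sum_congr rfl fun i _ => ?_
                simp
              · rw [Finset.disjoint_left]
                intro i hi hi'
                rw [Finset.mem_range] at hi; rw [Finset.mem_Ioc] at hi'; omega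
            · push Not at hk
              rw [Finset.Ioc_eq_empty (by omega), Finset.sum_empty, add_zero, ← hx]
              symm
              have : ∀ i ∈ Finset.range (k+1), i ∉ Finset.range (p.natDegree + 1) → (p.coeff i : K) * x ^ i = 0 := by
                intro i _ hi
                rw [Finset.mem_range] at hi
                rw [Polynomial.coeff_eq_zero_of_natDegree_lt (by omega)]; simp
              rw [← Finset.sum_subset (Finset.range_mono (by omega)) this]
              refine Finset.sum_congr rfl fun i _ => ?_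
              simp
          have hxk : x ^ k ≠ 0 := pow_ne_zero _ hx0
          apply mul_left_cancel₀ hxk
          rw [h4, mul_neg, h5]
          linear_combination h6
        rw [h3]
        exact neg_mem (sum_mem fun i _ => mul_mem (intCast_mem _ _) (pow_mem h _))
    rw [iInf_valuationSubring_superset] at h2
    exact h2
  have hint : Algebra.IsIntegral ℤ (Subring.closure (∅ : Set K)) := by
    refine ⟨fun y => ?_⟩
    obtain ⟨y, hy⟩ := y
    have : ∃ n : ℤ, (n : K) = y := by
      induction hy using Subring.closure_induction with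
      | mem x hx => exact hx.elim
      | zero => exact ⟨0, by simp⟩
      | one => exact ⟨1, by simp⟩
      | add x y _ _ hx hy => 
        obtain ⟨a, rfl⟩ := hx; obtain ⟨b, rfl⟩ := hy
        exact ⟨a + b, by push_cast; ring⟩
      | neg x _ hx =>
        obtain ⟨a, rfl⟩ := hx
        exact ⟨-a, by push_cast; ring⟩
      | mul x y _ _ hx hy => 
        obtain ⟨a, rfl⟩ := hx; obtain ⟨b, rfl⟩ := hy
        exact ⟨a * b, by push_cast; ring⟩
    obtain ⟨n, rfl⟩ := this
    have : (⟨(n : K), hy⟩ : Subring.closure (∅ : Set K)) = algebraMap ℤ _ n := by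
      apply Subtype.ext; simp
    rw [this]
    exact isIntegral_algebraMap
  exact isIntegral_trans _ h1

lemma mem_of_int {K : Type*} [Field K] (W : ValuationSubring K) {x : K} (hx : IsIntegral ℤ x) : x ∈ W := by
  have h := (IsIntegrallyClosed.isIntegral_iff (R := W) (K := K) (x := x)).mp (hx.tower_top)
  obtain ⟨y, rfl⟩ := h
  exact y.2

lemma mem_of_quad {K : Type*} [Field K] (W : ValuationSubring K) {z a b : K} (ha : a ∈ W) (hb : b ∈ W)
    (h : z ^ 2 - a * z + b = 0) : z ∈ W := by
  by_contra hz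
  have hz0 : z ≠ 0 := by rintro rfl; exact hz (zero_mem _)
  have hzi : z⁻¹ ∈ W := (W.mem_or_inv_mem z).resolve_left hz
  apply hz
  have : z = a - b * z⁻¹ := by
    field_simp
    linear_combination h
  rw [this]
  exact sub_mem ha (mul_mem hb hzi)

lemma val_int_le {K : Type*} [Field K] (W : ValuationSubring K) (n : ℤ) : W.valuation (n : K) ≤ 1 :=
  (W.valuation_le_one_iff _).mpr (intCast_mem _ _)

lemma dvd_val {K : Type*} [Field K] (W : ValuationSubring K) {l : ℕ} (h2 : W.valuation (l : K) < 1)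
    (n : ℤ) (hn : (l : ℤ) ∣ n) : W.valuation (n : K) < 1 := by
  obtain ⟨k, rfl⟩ := hn
  push_cast
  rw [map_mul]
  calc W.valuation (l : K) * W.valuation (k : K) ≤ W.valuation (l : K) * 1 := by gcongr; exact val_int_le W k
      _ < 1 := by simpa using h2

lemma not_dvd_val {K : Type*} [Field K] (W : ValuationSubring K) {l : ℕ} (hl : l.Prime)
    (h2 : W.valuation (l : K) < 1) (n : ℤ) (hn : ¬ (l : ℤ) ∣ n) :
    W.valuation (n : K) = 1 := by
  have hc : IsCoprime (l : ℤ) n := by
    rw [Int.isCoprime_iff_gcd_eq_one]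
    exact ((Nat.Prime.coprime_iff_not_dvd hl).mpr (by rwa [← Int.natCast_dvd]))
  obtain ⟨a, b, hab⟩ := hc
  by_contra hne
  have hlt : W.valuation (n : K) < 1 := lt_of_le_of_ne (val_int_le W n) hne
  have h1 : W.valuation ((a : K) * (l : K)) < 1 := by
    rw [map_mul]
    calc W.valuation (a : K) * W.valuation (l : K) ≤ 1 * W.valuation (l : K) := by gcongr; exact val_int_le W a
      _ < 1 := by simpa using h2
  have h3 : W.valuation ((b : K) * (n : K)) < 1 := by
    rw [map_mul]
    calc W.valuation (b : K) * W.valuation (n : K) ≤ 1 * W.valuation (n : K) := by gcongr; exact val_int_le W b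
      _ < 1 := by simpa using hlt
  have h4 : W.valuation ((a : K) * (l : K) + (b : K) * (n : K)) < 1 := Valuation.map_add_lt _ h1 h3
  have h5 : (a : K) * (l : K) + (b : K) * (n : K) = 1 := by
    exact_mod_cast congrArg (Int.cast : ℤ → K) hab
  rw [h5, map_one] at h4
  exact lt_irrefl _ h4

/-- clearing denominators at a valuation ring above the prime `l` -/
lemma clear_den {K : Type*} [Field K] [CharZero K] (W : ValuationSubring K) {l : ℕ} (hl : l.Prime)
    (h2 : W.valuation (l : K) < 1) (F : Subfield K) {x : K} (hxF : x ∈ F) (hxW : x ∈ W)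
    (halg : IsAlgebraic ℤ x) :
    ∃ s ∈ F, IsIntegral ℤ s ∧ W.valuation s = 1 ∧ IsIntegral ℤ (s * x) := by
  obtain ⟨p, hp0, hp⟩ := halg
  -- primitive part
  set q := p.primPart with hq
  have hqp : q.IsPrimitive := p.isPrimitive_primPart
  have hqx : Polynomial.aeval x q = 0 := Polynomial.aeval_primPart_eq_zero hp0 hp
  have hq0 : q ≠ 0 := hqp.ne_zero
  have hex : ∃ i, ¬ (l : ℤ) ∣ q.coeff i := by
    by_contra hcon
    push Not at hcon
    have : Polynomial.C (l : ℤ) ∣ q := (Polynomial.C_dvd_iff_dvd_coeff _ _).mpr hcon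
    have := hqp _ this
    rw [Int.isUnit_iff] at this
    have := hl.one_lt
    omega
  obtain ⟨i0, hi0⟩ := hex
  have hi0' : i0 ≤ q.natDegree := Polynomial.le_natDegree_of_ne_zero (by intro h; rw [h] at hi0; simp at hi0)
  let S := (Finset.range (q.natDegree + 1)).filter (fun i => ¬ (l : ℤ) ∣ q.coeff i)
  have hS : S.Nonempty := ⟨i0, by simp [S]; exact ⟨by omega, hi0⟩⟩
  obtain ⟨j, hjS, hjmax⟩ := S.exists_max_image id hS
  have hj1 : ¬ (l : ℤ) ∣ q.coeff j := (Finset.mem_filter.mp hjS).2
  have hj2 : j ≤ q.natDegree := by have := (Finset.mem_filter.mp hjS).1; rw [Finset.mem_range] at this; omega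
  have hj3 : ∀ i, j < i → (l : ℤ) ∣ q.coeff i := by
    intro i hi
    by_contra hcon
    have hi' : i ≤ q.natDegree := Polynomial.le_natDegree_of_ne_zero (by intro h; rw [h] at hcon; simp at hcon)
    have := hjmax i (by simp [S]; exact ⟨by omega, hcon⟩)
    simp at this; omega
  set h := ∑ i ∈ Finset.Ioc j q.natDegree, (q.coeff i : K) * x ^ (i - j) with hh
  have hhint : IsIntegral ℤ h := horner q x hqx j
  have hhval : W.valuation h < 1 := by
    apply Valuation.map_sum_lt _ one_ne_zero
    intro i hi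
    rw [Finset.mem_Ioc] at hi
    rw [map_mul, map_pow]
    have hx1 : W.valuation x ^ (i - j) ≤ 1 := pow_le_one₀ (by simp) ((W.valuation_le_one_iff _).mpr hxW)
    calc W.valuation (q.coeff i : K) * W.valuation x ^ (i - j) ≤ W.valuation (q.coeff i : K) * 1 := by gcongr
      _ < 1 := by simpa using dvd_val W h2 _ (hj3 i hi.1)
  refine ⟨h + (q.coeff j : K), ?_, ?_, ?_, ?_⟩
  · refine add_mem (sum_mem fun i _ => mul_mem (intCast_mem _ _) (pow_mem hxF _)) (intCast_mem _ _)
  · exact hhint.add isIntegral_algebraMap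
  · have h5 : W.valuation (q.coeff j : K) = 1 := not_dvd_val W hl h2 _ hj1
    rw [Valuation.map_add_eq_of_lt_right _ (by rw [h5]; exact hhval), h5]
  · rcases Nat.eq_zero_or_pos j with hj | hj
    · subst hj
      have : h + (q.coeff 0 : K) = 0 := by
        have h8 : Finset.range (q.natDegree + 1) = insert 0 (Finset.Ioc 0 q.natDegree) := by
          ext i; simp only [Finset.mem_range, Finset.mem_insert, Finset.mem_Ioc]; omega
        rw [← hqx, Polynomial.aeval_eq_sum_range, h8, Finset.sum_insert (by simp), hh]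
        simp [add_comm]
      rw [this, zero_mul]
      exact isIntegral_zero
    · have := horner q x hqx (j - 1)
      have h6 : (h + (q.coeff j : K)) * x = ∑ i ∈ Finset.Ioc (j-1) q.natDegree, (q.coeff i : K) * x ^ (i - (j-1)) := by
        have h7 : Finset.Ioc (j-1) q.natDegree = insert j (Finset.Ioc j q.natDegree) := by
          ext i; simp only [Finset.mem_Ioc, Finset.mem_insert]; omega
        rw [h7, Finset.sum_insert (by simp), add_mul, hh, Finset.sum_mul]
        rw [show j - (j-1) = 1 by omega, pow_one, add_comm]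
        congr 1
        refine Finset.sum_congr rfl fun i hi => ?_
        rw [Finset.mem_Ioc] at hi
        rw [show i - (j-1) = (i - j) + 1 by omega, pow_succ]; ring
      rw [h6]; exact this

lemma int_of_quad {z T N : ℂ} (hT : IsIntegral ℤ T) (hN : IsIntegral ℤ N) (h : z ^ 2 - T * z + N = 0) :
    IsIntegral ℤ z := by
  have h1 : IsIntegral (integralClosure ℤ ℂ) z := by
    refine ⟨Polynomial.X ^ 2 - Polynomial.C (⟨T, hT⟩ : integralClosure ℤ ℂ) * Polynomial.X + Polynomial.C ⟨N, hN⟩, by monicity!, ?_⟩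
    simp only [Polynomial.eval₂_add, Polynomial.eval₂_sub, Polynomial.eval₂_pow, Polynomial.eval₂_X, Polynomial.eval₂_mul, Polynomial.eval₂_C]
    exact h
  exact isIntegral_trans _ h1

/-- Key construction: a valuation ring of `ℂ` at which every unit vector over `F` is a principal unit. -/
lemma exists_good_valuation (F : Subfield ℂ) (hreal : ∀ x ∈ F, (starRingEnd ℂ) x = x)
    (halg : ∀ x ∈ F, IsAlgebraic ℤ x)
    (hno : ¬ ∃ a ∈ F, IsIntegral ℤ a ∧ IsIntegral ℤ ((a ^ 2 + 1) / 4)) :
    ∃ W : ValuationSubring ℂ, W.valuation 2 < 1 ∧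
      ∀ x ∈ F, ∀ y ∈ F, x ^ 2 + y ^ 2 = 1 → W.valuation (x + y * I - 1) < 1 := by
  -- integers of F
  let O : Subring ℂ := F.toSubring ⊓ (integralClosure ℤ ℂ).toSubring
  have hO : ∀ x, x ∈ O ↔ x ∈ F ∧ IsIntegral ℤ x := by
    intro x; simp [O, mem_integralClosure_iff]
  have hI : IsIntegral ℤ (I : ℂ) := by
    refine ⟨Polynomial.X ^ 2 + 1, by monicity!, by simp⟩
  let Y : Ideal O :=
    { carrier := {y | ∃ x ∈ F, IsIntegral ℤ ((x + (y : ℂ) * I) / 2)}
      zero_mem' := ⟨0, zero_mem _, by simpa using isIntegral_zero⟩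
      add_mem' := by
        rintro a b ⟨x, hx, hx'⟩ ⟨y, hy, hy'⟩
        refine ⟨x + y, add_mem hx hy, ?_⟩
        have e : (x + y + ((a + b : O) : ℂ) * I) / 2 = (x + (a : ℂ) * I) / 2 + (y + (b : ℂ) * I) / 2 := by
          rw [Subring.coe_add]; ring
        rw [e]
        exact hx'.add hy'
      smul_mem' := by
        rintro c a ⟨x, hx, hx'⟩
        refine ⟨(c : ℂ) * x, mul_mem ((hO _).mp c.2).1 hx, ?_⟩
        have e : ((c : ℂ) * x + ((c • a : O) : ℂ) * I) / 2 = (c : ℂ) * ((x + (a : ℂ) * I) / 2) := by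
          rw [smul_eq_mul, Subring.coe_mul]; ring
        rw [e]
        exact ((hO _).mp c.2).2.mul hx' }
  have hY : ∀ y : O, y ∈ Y ↔ ∃ x ∈ F, IsIntegral ℤ ((x + (y : ℂ) * I) / 2) := fun y => Iff.rfl
  have hconj : ∀ z : ℂ, IsIntegral ℤ z → IsIntegral ℤ ((starRingEnd ℂ) z) := by
    intro z hz
    exact hz.map ((starRingEnd ℂ).toIntAlgHom)
  have hYtop : Y ≠ ⊤ := by
    rw [Ideal.ne_top_iff_one, hY]
    rintro ⟨x, hx, hz⟩
    apply hno
    have hz' := hconj _ hz
    rw [Subring.coe_one, one_mul] at hz hz'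
    have e1 : (starRingEnd ℂ) ((x + I) / 2) = (x - I) / 2 := by
      rw [map_div₀, map_add, hreal x hx, conj_I, map_ofNat]; ring
    rw [e1] at hz'
    refine ⟨x, hx, ?_, ?_⟩
    · have e : x = (x + I) / 2 + (x - I) / 2 := by ring
      rw [e]; exact hz.add hz'
    · have hII : I * I = -1 := I_mul_I
      have e : (x ^ 2 + 1) / 4 = (x + I) / 2 * ((x - I) / 2) := by
        linear_combination (1/4) * hII
      rw [e]; exact hz.mul hz'
  obtain ⟨W, hOW, hYW⟩ := Ideal.image_subset_nonunits_valuationSubring Y hYtop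
  have h2Y : ∃ h : (2 : ℂ) ∈ O, (⟨2, h⟩ : O) ∈ Y := by
    refine ⟨(hO _).mpr ⟨by exact_mod_cast natCast_mem F 2, by exact_mod_cast (isIntegral_algebraMap (R := ℤ) (A := ℂ) (x := 2))⟩, ?_⟩
    rw [hY]
    refine ⟨0, zero_mem _, ?_⟩
    have e : ((0 : ℂ) + 2 * I) / 2 = I := by ring
    show IsIntegral ℤ (((0 : ℂ) + 2 * I) / 2)
    rw [e]; exact hI
  have h2 : W.valuation 2 < 1 := by
    obtain ⟨h, h'⟩ := h2Y
    exact W.mem_nonunits_iff.mp (hYW ⟨⟨2, h⟩, h', rfl⟩)
  have h2' : W.valuation ((2 : ℕ) : ℂ) < 1 := by simpa using h2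
  have claim1 : ∀ t ∈ F, t ∈ W → (t ^ 2 + 1) / 4 ∉ W := by
    intro t ht htW hcon
    obtain ⟨s1, hs1F, hs1i, hs1v, hs1t⟩ := clear_den W Nat.prime_two h2' F ht htW (halg t ht)
    have h4F : (t ^ 2 + 1) / 4 ∈ F := div_mem (add_mem (pow_mem ht 2) (one_mem _)) (by exact_mod_cast natCast_mem F 4)
    obtain ⟨s2, hs2F, hs2i, hs2v, hs2t⟩ := clear_den W Nat.prime_two h2' F h4F hcon (halg _ h4F)
    have hSF : s1 * s2 ∈ F := mul_mem hs1F hs2F
    have hSint : IsIntegral ℤ (s1 * s2) := hs1i.mul hs2i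
    have hz : IsIntegral ℤ ((s1 * s2 * t + (s1 * s2) * I) / 2) := by
      have htr : IsIntegral ℤ (s1 * s2 * t) := by
        have e : s1 * s2 * t = s1 * t * s2 := by ring
        rw [e]; exact hs1t.mul hs2i
      have hnm : IsIntegral ℤ (s1 * s2 * (s1 * s2) * ((t ^ 2 + 1) / 4)) := by
        have e : s1 * s2 * (s1 * s2) * ((t ^ 2 + 1) / 4) = s1 * (s1 * s2) * (s2 * ((t ^ 2 + 1) / 4)) := by ring
        rw [e]; exact (hs1i.mul hSint).mul hs2t
      have hII : I * I = -1 := I_mul_I
      exact int_of_quad htr hnm (by linear_combination ((s1 * s2) ^ 2 / 4) * hII)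
    have hSY : (⟨s1 * s2, (hO _).mpr ⟨hSF, hSint⟩⟩ : O) ∈ Y := by
      rw [hY]
      exact ⟨s1 * s2 * t, mul_mem hSF ht, hz⟩
    have := W.mem_nonunits_iff.mp (hYW ⟨_, hSY, rfl⟩)
    have h3 : W.valuation (s1 * s2) < 1 := this
    rw [map_mul, hs1v, hs2v] at h3
    simp at h3
  refine ⟨W, h2, ?_⟩
  intro x hx y hy hxy
  have hIW : (I : ℂ) ∈ W := mem_of_int W hI
  have h2W : (2 : ℂ) ∈ W := by exact_mod_cast natCast_mem W 2
  -- 2x in W
  have h2x : ∀ x ∈ F, ∀ y ∈ F, x ^ 2 + y ^ 2 = 1 → 2 * x ∈ W := by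
    intro x hx y hy hxy
    by_contra hcon
    have hinv : (2 * x)⁻¹ ∈ W := (W.mem_or_inv_mem _).resolve_left hcon
    have hx0 : x ≠ 0 := by rintro rfl; exact hcon (by simp)
    have ht : (y / x) ^ 2 = -1 + 4 * ((2 * x)⁻¹ * (2 * x)⁻¹) := by
      field_simp
      linear_combination 4 * hxy
    have htW : y / x ∈ W := by
      have h4 : (4 : ℂ) ∈ W := by exact_mod_cast natCast_mem W 4
      have h5 : (y / x) ^ 2 ∈ W := by rw [ht]; exact add_mem (neg_mem (one_mem _)) (mul_mem h4 (mul_mem hinv hinv))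
      refine mem_of_quad W (zero_mem _) (neg_mem h5) ?_
      ring
    apply claim1 (y / x) (div_mem hy hx) htW
    rw [ht]
    have : (-1 + 4 * ((2 * x)⁻¹ * (2 * x)⁻¹) + 1) / 4 = (2 * x)⁻¹ * (2 * x)⁻¹ := by ring
    rw [this]
    exact mul_mem hinv hinv
  have h2xW : 2 * x ∈ W := h2x x hx y hy hxy
  have h2yW : 2 * y ∈ W := h2x y hy x hx (by linear_combination hxy)
  have h2y : W.valuation (2 * y) < 1 := by
    rw [← W.mem_nonunits_iff, W.mem_nonunits_iff_or]
    by_contra hcon
    push Not at hcon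
    obtain ⟨h0, hinv⟩ := hcon
    have hy0 : y ≠ 0 := by rintro rfl; simp at h0
    have htW : x / y ∈ W := by
      have : x / y = (2 * x) * (2 * y)⁻¹ := by field_simp
      rw [this]; exact mul_mem h2xW hinv
    apply claim1 (x / y) (div_mem hx hy) htW
    have : ((x / y) ^ 2 + 1) / 4 = (2 * y)⁻¹ * (2 * y)⁻¹ := by
      field_simp
      linear_combination 4 * hxy
    rw [this]
    exact mul_mem hinv hinv
  set z := x + y * I with hz
  have hII : I * I = -1 := I_mul_I
  have hzW : z ∈ W := mem_of_quad W h2xW (one_mem _) (by rw [hz]; linear_combination (-1) * hxy + y ^ 2 * hII)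
  have hzc : (z - 1) * (z + 1) = 2 * y * I * z := by
    rw [hz]; linear_combination hxy - (y^2) * hII
  have hv : W.valuation ((z - 1) * (z + 1)) < 1 := by
    rw [hzc, map_mul, map_mul]
    have hI1 : W.valuation I ≤ 1 := (W.valuation_le_one_iff _).mpr hIW
    have hz1 : W.valuation z ≤ 1 := (W.valuation_le_one_iff _).mpr hzW
    calc W.valuation (2 * y) * W.valuation I * W.valuation z ≤ W.valuation (2 * y) * 1 * 1 := by gcongr
      _ < 1 := by simpa using h2y
  by_contra hcon
  have h1 : W.valuation (z - 1) = 1 := by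
    apply le_antisymm
    · exact (W.valuation_le_one_iff _).mpr (sub_mem hzW (one_mem _))
    · exact not_lt.mp hcon
  have h3 : W.valuation (z + 1) = 1 := by
    have : z + 1 = 2 + (z - 1) := by ring
    rw [this, Valuation.map_add_eq_of_lt_right _ (by rw [h1]; exact h2), h1]
  rw [map_mul, h1, h3] at hv
  simp at hv

/-- the complex number attached to a pair -/
noncomputable def toC {F : IntermediateField ℚ ℝ} (p : F × F) : ℂ := ((p.1 : ℝ) : ℂ) + ((p.2 : ℝ) : ℂ) * I

lemma toC_sub {F : IntermediateField ℚ ℝ} (p q : F × F) : toC (p - q) = toC p - toC q := by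
  simp [toC]; ring

lemma toC_add {F : IntermediateField ℚ ℝ} (p q : F × F) : toC (p + q) = toC p + toC q := by
  simp [toC]; ring

lemma two_colorable_of_no (F : IntermediateField ℚ ℝ) (hF : Algebra.IsAlgebraic ℚ F)
    (hno : ¬ ∃ a : F, IsIntegral ℤ a ∧ IsIntegral ℤ ((a ^ 2 + 1) / 4)) :
    (unitDistGraph F).Colorable 2 := by
  let FC : Subfield ℂ := F.toSubfield.map Complex.ofRealHom
  have hFC : ∀ x, x ∈ FC ↔ ∃ a : F, ((a : ℝ) : ℂ) = x := by
    intro x
    simp only [FC, Subfield.mem_map]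
    constructor
    · rintro ⟨a, ha, rfl⟩; exact ⟨⟨a, ha⟩, rfl⟩
    · rintro ⟨a, rfl⟩; exact ⟨a, a.2, rfl⟩
  have hreal : ∀ x ∈ FC, (starRingEnd ℂ) x = x := by
    intro x hx
    obtain ⟨a, rfl⟩ := (hFC x).mp hx
    exact conj_ofReal _
  have halg : ∀ x ∈ FC, IsAlgebraic ℤ x := by
    intro x hx
    obtain ⟨a, rfl⟩ := (hFC x).mp hx
    have h1 : IsAlgebraic ℚ a := hF.isAlgebraic a
    have h2 : IsAlgebraic ℤ a := (IsFractionRing.isAlgebraic_iff ℤ ℚ F).mpr h1
    have h3 : IsAlgebraic ℤ (algebraMap F ℝ a) := h2.algebraMap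
    have h4 : IsAlgebraic ℤ (algebraMap ℝ ℂ (algebraMap F ℝ a)) := h3.algebraMap
    exact h4
  have hno' : ¬ ∃ a ∈ FC, IsIntegral ℤ a ∧ IsIntegral ℤ ((a ^ 2 + 1) / 4) := by
    rintro ⟨x, hx, h1, h2⟩
    obtain ⟨a, rfl⟩ := (hFC x).mp hx
    apply hno
    have hinj : Function.Injective ((algebraMap ℝ ℂ).comp (algebraMap F ℝ)) := RingHom.injective _
    refine ⟨a, ?_, ?_⟩
    · exact (isIntegral_algHom_iff (((algebraMap ℝ ℂ).comp (algebraMap F ℝ)).toIntAlgHom) hinj).mp h1
    · refine (isIntegral_algHom_iff (((algebraMap ℝ ℂ).comp (algebraMap F ℝ)).toIntAlgHom) hinj).mp ?_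
      have e4 : (((4 : F) : ℝ) : ℂ) = 4 := by norm_cast
      convert h2 using 1
      simp [e4]
  obtain ⟨W, h2, hW⟩ := exists_good_valuation FC hreal halg hno'
  rw [SimpleGraph.two_colorable_iff_forall_loop_even]
  have key : ∀ (p q : F × F) (w : (unitDistGraph F).Walk p q), W.valuation (toC p - toC q - (w.length : ℂ)) < 1 := by
    intro p q w
    induction w with
    | nil => simp
    | @cons p q r h w ih =>
      have hadj : (p.1 - q.1) ^ 2 + (p.2 - q.2) ^ 2 = 1 := h
      have h3 : W.valuation (toC (p - q) - 1) < 1 := by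
        refine hW _ ((hFC _).mpr ⟨(p - q).1, rfl⟩) _ ((hFC _).mpr ⟨(p - q).2, rfl⟩) ?_
        have := congrArg (fun x : F => ((x : ℝ) : ℂ)) hadj
        simpa using this
      have e : toC p - toC r - (((SimpleGraph.Walk.cons h w).length : ℕ) : ℂ) = (toC (p - q) - 1) + (toC q - toC r - (w.length : ℂ)) := by
        rw [toC_sub, SimpleGraph.Walk.length_cons]; push_cast; ring
      rw [e]
      exact Valuation.map_add_lt _ h3 ih
  intro p w
  have h3 := key p p w
  by_contra hodd
  rw [Nat.not_even_iff_odd] at hodd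
  have h4 : W.valuation (((w.length : ℤ) : ℂ)) = 1 := by
    refine not_dvd_val W Nat.prime_two (by simpa using h2) _ ?_
    obtain ⟨k, hk⟩ := hodd
    omega
  rw [sub_self, zero_sub, Valuation.map_neg] at h3
  push_cast at h4
  rw [h4] at h3
  exact lt_irrefl _ h3

lemma not_two_colorable_of (F : IntermediateField ℚ ℝ) (a : F) (ha : IsIntegral ℤ a)
    (hb : IsIntegral ℤ ((a ^ 2 + 1) / 4)) : ¬ (unitDistGraph F).Colorable 2 := by
  rintro ⟨c⟩
  let U : Submonoid ℂ :=
    { carrier := {z | ∃ e : F × F, e.1 ^ 2 + e.2 ^ 2 = 1 ∧ toC e = z}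
      one_mem' := ⟨(1, 0), by simp, by simp [toC]⟩
      mul_mem' := by
        rintro x y ⟨e, he, rfl⟩ ⟨f, hf, rfl⟩
        refine ⟨(e.1 * f.1 - e.2 * f.2, e.1 * f.2 + e.2 * f.1), ?_, ?_⟩
        · linear_combination (f.1 ^ 2 + f.2 ^ 2) * he + hf
        · have hII : I * I = -1 := I_mul_I
          simp only [toC]
          push_cast
          linear_combination (-((e.2 : ℝ) : ℂ) * ((f.2 : ℝ) : ℂ)) * hII }
  have hU : ∀ z, z ∈ U ↔ ∃ e : F × F, e.1 ^ 2 + e.2 ^ 2 = 1 ∧ toC e = z := fun z => Iff.rfl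
  let H : AddSubgroup ℂ :=
    { carrier := {z | ∃ e : F × F, toC e = z ∧ ∀ p, c (p + e) = c p}
      zero_mem' := ⟨0, by simp [toC], by simp⟩
      add_mem' := by
        rintro x y ⟨e, rfl, he⟩ ⟨f, rfl, hf⟩
        exact ⟨e + f, toC_add _ _, fun p => by rw [← add_assoc, hf, he]⟩
      neg_mem' := by
        rintro x ⟨e, rfl, he⟩
        refine ⟨-e, by simp [toC]; ring, fun p => ?_⟩
        have := he (p + -e)
        rw [neg_add_cancel_right] at this
        exact this.symm }
  let E : AddSubgroup ℂ := AddSubgroup.closure {z | ∃ u ∈ U, ∃ v ∈ U, z = u - v}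
  have hne : ∀ (p e : F × F), e.1 ^ 2 + e.2 ^ 2 = 1 → c (p + e) ≠ c p := by
    intro p e he
    apply c.valid
    show ((p + e).1 - p.1) ^ 2 + ((p + e).2 - p.2) ^ 2 = 1
    simpa using he
  have hEH : E ≤ H := by
    rw [AddSubgroup.closure_le]
    rintro z ⟨u, ⟨e, he, rfl⟩, v, ⟨f, hf, rfl⟩, rfl⟩
    refine ⟨e - f, toC_sub _ _, fun p => ?_⟩
    have h1 := hne (p + (e - f)) f hf
    have h2 := hne p e he
    rw [show p + (e - f) + f = p + e by abel] at h1
    omega
  let A : AddSubgroup ℂ := AddSubgroup.closure (U : Set ℂ)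
  have hEA : E ≤ A := by
    rw [AddSubgroup.closure_le]
    rintro z ⟨u, hu, v, hv, rfl⟩
    exact sub_mem (AddSubgroup.subset_closure hu) (AddSubgroup.subset_closure hv)
  have hUE : ∀ w ∈ U, ∀ e ∈ E, w * e ∈ E := by
    intro w hw e he
    induction he using AddSubgroup.closure_induction with
    | mem x hx =>
      obtain ⟨u, hu, v, hv, rfl⟩ := hx
      rw [mul_sub]
      exact AddSubgroup.subset_closure ⟨w * u, mul_mem hw hu, w * v, mul_mem hw hv, rfl⟩
    | zero => simp [E]
    | add x y _ _ hx hy => rw [mul_add]; exact add_mem hx hy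
    | neg x _ hx => rw [mul_neg]; exact neg_mem hx
  have hAE : ∀ w ∈ A, ∀ e ∈ E, w * e ∈ E := by
    intro w hw e he
    induction hw using AddSubgroup.closure_induction with
    | mem x hx => exact hUE x hx e he
    | zero => simp [E]
    | add x y _ _ hx hy => rw [add_mul]; exact add_mem hx hy
    | neg x _ hx => rw [neg_mul]; exact neg_mem hx
  have hpow : ∀ x ∈ E, ∀ k : ℕ, x ^ (k + 1) ∈ E := by
    intro x hx k
    induction k with
    | zero => simpa using hx
    | succ k ih => rw [pow_succ']; exact hAE x (hEA hx) _ ih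
  -- the element
  set α : ℂ := ((a : ℝ) : ℂ) with hα
  have hII : I * I = -1 := I_mul_I
  have hαint : IsIntegral ℤ α := by
    have h3 : IsIntegral ℤ (algebraMap F ℝ a) := ha.algebraMap
    exact h3.algebraMap (B := ℂ)
  have hβint : IsIntegral ℤ ((α ^ 2 + 1) / 4) := by
    have h3 : IsIntegral ℤ (algebraMap F ℝ ((a ^ 2 + 1) / 4)) := hb.algebraMap
    have h4 : IsIntegral ℤ (algebraMap ℝ ℂ (algebraMap F ℝ ((a ^ 2 + 1) / 4))) := h3.algebraMap
    have e4 : (((4 : F) : ℝ) : ℂ) = 4 := by norm_cast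
    convert h4 using 1
    simp [hα, e4]
  have hω : IsIntegral ℤ ((α - I) / 2) :=
    int_of_quad hαint hβint (by linear_combination (1/4) * hII)
  have hαI : α - I ≠ 0 := by
    intro h
    have := congrArg Complex.im h
    simp [hα] at this
  have hαI' : α + I ≠ 0 := by
    intro h
    have := congrArg Complex.im h
    simp [hα] at this
  have hu : (α + I) / (α - I) ∈ U := by
    have hpos : (a ^ 2 + 1 : F) ≠ 0 := by
      intro h
      have h' : ((a : ℝ)) ^ 2 + 1 = 0 := by exact_mod_cast congrArg (fun x : F => (x : ℝ)) h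
      nlinarith [sq_nonneg (a : ℝ)]
    refine ⟨((a ^ 2 - 1) / (a ^ 2 + 1), 2 * a / (a ^ 2 + 1)), ?_, ?_⟩
    · field_simp
      ring
    · have hpos' : (α ^ 2 + 1 : ℂ) ≠ 0 := by
        have : (α ^ 2 + 1 : ℂ) = (α - I) * (α + I) := by linear_combination hII
        rw [this]; exact mul_ne_zero hαI hαI'
      have e2 : (((2 : F) : ℝ) : ℂ) = 2 := by norm_cast
      simp only [toC]
      push_cast
      rw [← hα, e2]
      field_simp
      linear_combination (-2 * α) * hII
  have hIU : I ∈ U := ⟨(0, 1), by simp, by simp [toC]⟩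
  have hx : ((α - I) / 2)⁻¹ ∈ E := by
    apply AddSubgroup.subset_closure
    refine ⟨I, hIU, I * ((α + I) / (α - I)), mul_mem hIU hu, ?_⟩
    field_simp
    linear_combination 2 * hII
  have h1E : (1 : ℂ) ∈ E := by
    obtain ⟨p, hpm, hp⟩ := hω
    set ω := (α - I) / 2 with hωdef
    have hω0 : ω ≠ 0 := div_ne_zero hαI two_ne_zero
    rw [← Polynomial.aeval_def, Polynomial.aeval_eq_sum_range, Finset.sum_range_succ, hpm.coeff_natDegree] at hp
    have h3 : (1 : ℂ) = - ∑ i ∈ Finset.range p.natDegree, (p.coeff i : ℂ) * (ω⁻¹) ^ (p.natDegree - i) := by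
      have h4 : ω ^ p.natDegree * (∑ i ∈ Finset.range p.natDegree, (p.coeff i : ℂ) * (ω⁻¹) ^ (p.natDegree - i)) = ∑ i ∈ Finset.range p.natDegree, p.coeff i • ω ^ i := by
        rw [Finset.mul_sum]
        refine Finset.sum_congr rfl fun i hi => ?_
        rw [Finset.mem_range] at hi
        obtain ⟨j, hj⟩ := Nat.exists_eq_add_of_lt hi
        rw [show p.natDegree - i = j + 1 by omega, hj, inv_pow]
        rw [show i + j + 1 = i + (j + 1) by ring, pow_add]
        field_simp
        simp [mul_comm]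
      apply mul_left_cancel₀ (pow_ne_zero p.natDegree hω0)
      rw [mul_neg, h4]
      simp only [one_smul] at hp
      linear_combination hp
    rw [h3]
    refine neg_mem (sum_mem fun i hi => ?_)
    rw [Finset.mem_range] at hi
    obtain ⟨j, hj⟩ := Nat.exists_eq_add_of_lt hi
    rw [show p.natDegree - i = j + 1 by omega]
    rw [← zsmul_eq_mul]
    exact zsmul_mem (hpow _ hx j) _
  obtain ⟨e, he, hc⟩ := hEH h1E
  have he1 : e.1 ^ 2 + e.2 ^ 2 = 1 := by
    have h5 := congrArg Complex.re he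
    have h6 := congrArg Complex.im he
    simp [toC] at h5 h6
    rw [h6]
    have : e.1 = 1 := by exact_mod_cast h5
    rw [this]; simp
  exact hne 0 e he1 (hc 0)


lemma three_colorable (F : IntermediateField ℚ ℝ) (hF : Algebra.IsAlgebraic ℚ F)
    (φ : integralClosure ℤ F →+* ZMod 3) : (unitDistGraph F).Colorable 3 := by
  let A : Subring F := (integralClosure ℤ F).toSubring
  let ψ : A →+* ZMod 3 := φ
  have hA : ∀ x : F, x ∈ A ↔ IsIntegral ℤ x := fun x => Iff.rfl
  have htop : RingHom.ker ψ ≠ ⊤ := RingHom.ker_ne_top ψ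
  obtain ⟨W, hAW, hKW⟩ := Ideal.image_subset_nonunits_valuationSubring (RingHom.ker ψ) htop
  have hker : ∀ x : A, ψ x = 0 → W.valuation (x : F) < 1 := fun x hx =>
    W.mem_nonunits_iff.mp (hKW ⟨x, hx, rfl⟩)
  have h3 : W.valuation ((3 : ℕ) : F) < 1 := by
    have h := hker ((3 : ℕ) : A) (by rw [map_natCast]; rfl)
    have e : (((3 : ℕ) : A) : F) = ((3 : ℕ) : F) := by push_cast; rfl
    rwa [e] at h
  have halg : ∀ x : F, IsAlgebraic ℤ x := fun x =>
    (IsFractionRing.isAlgebraic_iff ℤ ℚ F).mpr (hF.isAlgebraic x)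
  have hres : ∀ x ∈ W, ∃ r : ZMod 3, W.valuation (x - (r.val : F)) < 1 := by
    intro x hx
    obtain ⟨s, -, hs, hsv, hsx⟩ := clear_den W Nat.prime_three h3 ⊤ (Subfield.mem_top x) hx (halg x)
    have hφs : ψ ⟨s, hs⟩ ≠ 0 := by
      intro h
      have := hker _ h
      simp [hsv] at this
    refine ⟨ψ ⟨s * x, hsx⟩ * (ψ ⟨s, hs⟩)⁻¹, ?_⟩
    set r := ψ ⟨s * x, hsx⟩ * (ψ ⟨s, hs⟩)⁻¹ with hr
    have h4 : ψ (⟨s * x, hsx⟩ - (r.val : A) * ⟨s, hs⟩) = 0 := by
      have hfact : Fact (Nat.Prime 3) := ⟨Nat.prime_three⟩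
      rw [map_sub, map_mul, map_natCast, ZMod.natCast_zmod_val, hr, mul_assoc, inv_mul_cancel₀ hφs,
        mul_one, sub_self]
    have h5 := hker _ h4
    have h6 : (((⟨s * x, hsx⟩ - (r.val : A) * ⟨s, hs⟩ : A)) : F) = s * (x - (r.val : F)) := by
      push_cast
      ring
    rw [h6, map_mul, hsv, one_mul] at h5
    exact h5
  have hsq : ∀ x ∈ W, ¬ W.valuation (x ^ 2 + 1) < 1 := by
    intro x hx hlt
    obtain ⟨r, hr⟩ := hres x hx
    have hx1 : W.valuation x ≤ 1 := (W.valuation_le_one_iff _).mpr hx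
    have hr1 : W.valuation (r.val : F) ≤ 1 := (W.valuation_le_one_iff _).mpr (natCast_mem _ _)
    have h4 : W.valuation ((x - (r.val : F)) * (x + (r.val : F))) < 1 := by
      rw [map_mul]
      have h7 : W.valuation (x + (r.val : F)) ≤ 1 := Valuation.map_add_le _ hx1 hr1
      calc W.valuation (x - (r.val : F)) * W.valuation (x + (r.val : F)) ≤ W.valuation (x - (r.val : F)) * 1 := by gcongr
        _ < 1 := by simpa using hr
    have h5 : W.valuation (((r.val : ℤ) ^ 2 + 1 : ℤ) : F) < 1 := by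
      have e : (((r.val : ℤ) ^ 2 + 1 : ℤ) : F) = (x ^ 2 + 1) - ((x - (r.val : F)) * (x + (r.val : F))) := by
        push_cast; ring
      rw [e]
      exact Valuation.map_sub_lt _ hlt h4
    have h6 : ¬ ((3 : ℕ) : ℤ) ∣ ((r.val : ℤ) ^ 2 + 1) := by
      have hlt3 : r.val < 3 := ZMod.val_lt r
      interval_cases r.val <;> decide
    rw [not_dvd_val W Nat.prime_three h3 _ h6] at h5
    exact lt_irrefl _ h5
  have hmem : ∀ x y : F, x ^ 2 + y ^ 2 = 1 → x ∈ W := by
    intro x y hxy
    by_contra hcon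
    have hinv : x⁻¹ ∈ W := (W.mem_or_inv_mem _).resolve_left hcon
    have hx0 : x ≠ 0 := by rintro rfl; exact hcon (zero_mem W)
    have hinv1 : W.valuation x⁻¹ < 1 := by
      rw [← W.mem_nonunits_iff, W.inv_mem_nonunits_iff]
      exact Or.inr hcon
    have ht : (y / x) ^ 2 + 1 = x⁻¹ * x⁻¹ := by
      field_simp
      linear_combination hxy
    have htW : y / x ∈ W := by
      have h5 : (y / x) ^ 2 ∈ W := by
        have : (y / x) ^ 2 = x⁻¹ * x⁻¹ - 1 := by linear_combination ht
        rw [this]; exact sub_mem (mul_mem hinv hinv) (one_mem _)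
      refine mem_of_quad W (zero_mem _) (neg_mem h5) ?_
      ring
    apply hsq _ htW
    rw [ht, map_mul]
    calc W.valuation x⁻¹ * W.valuation x⁻¹ ≤ W.valuation x⁻¹ * 1 := by gcongr
      _ < 1 := by simpa using hinv1
  let WA : AddSubgroup F := W.toSubring.toAddSubgroup
  have hWA : ∀ x, x ∈ WA ↔ x ∈ W := fun x => Iff.rfl
  let rep : F → F := fun x => Quotient.out (QuotientAddGroup.mk x : F ⧸ WA)
  have hrep : ∀ x, x - rep x ∈ W := by
    intro x
    have h : (QuotientAddGroup.mk (rep x) : F ⧸ WA) = QuotientAddGroup.mk x := Quotient.out_eq _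
    have h' := QuotientAddGroup.eq.mp h
    rw [hWA] at h'
    have e : x - rep x = -rep x + x := by ring
    rw [e]; exact h'
  have hrepeq : ∀ x x', x - x' ∈ W → rep x = rep x' := by
    intro x x' hx
    have : (QuotientAddGroup.mk x : F ⧸ WA) = QuotientAddGroup.mk x' := by
      rw [QuotientAddGroup.eq, hWA]
      have e : -x + x' = -(x - x') := by ring
      rw [e]; exact neg_mem hx
    simp only [rep, this]
  choose! res hres' using hres
  have hcol : ∀ p q : F × F, (unitDistGraph F).Adj p q →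
      res (p.1 - rep p.1) + res (p.2 - rep p.2) ≠ res (q.1 - rep q.1) + res (q.2 - rep q.2) := by
    intro p q hpq heq
    have hadj : (p.1 - q.1) ^ 2 + (p.2 - q.2) ^ 2 = 1 := hpq
    have hx : p.1 - q.1 ∈ W := hmem _ _ hadj
    have hy : p.2 - q.2 ∈ W := hmem _ (p.1 - q.1) (by linear_combination hadj)
    have e1 := hrepeq _ _ hx
    have e2 := hrepeq _ _ hy
    have v1 := hres' _ (hrep p.1)
    have v2 := hres' _ (hrep p.2)
    have v3 := hres' _ (hrep q.1)
    have v4 := hres' _ (hrep q.2)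
    set r1 := res (p.1 - rep p.1)
    set r2 := res (p.2 - rep p.2)
    set r3 := res (q.1 - rep q.1)
    set r4 := res (q.2 - rep q.2)
    have hdiv : ((3 : ℕ) : ℤ) ∣ ((r1.val : ℤ) + r2.val - r3.val - r4.val) := by
      rw [← ZMod.intCast_zmod_eq_zero_iff_dvd]
      push_cast
      rw [ZMod.natCast_zmod_val, ZMod.natCast_zmod_val, ZMod.natCast_zmod_val, ZMod.natCast_zmod_val]
      linear_combination heq
    have v5 := dvd_val W h3 _ hdiv
    have v6 : W.valuation ((p.1 - q.1) + (p.2 - q.2)) < 1 := by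
      have e : (p.1 - q.1) + (p.2 - q.2) = ((p.1 - rep p.1 - (r1.val : F)) + (p.2 - rep p.2 - (r2.val : F)))
          - ((q.1 - rep q.1 - (r3.val : F)) + (q.2 - rep q.2 - (r4.val : F)))
          + (((r1.val : ℤ) + r2.val - r3.val - r4.val : ℤ) : F) := by
        rw [e1, e2]
        push_cast; ring
      rw [e]
      exact Valuation.map_add_lt _ (Valuation.map_sub_lt _ (Valuation.map_add_lt _ v1 v2) (Valuation.map_add_lt _ v3 v4)) v5
    -- squares
    set dx := p.1 - q.1
    set dy := p.2 - q.2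
    have v7 : W.valuation (dx ^ 2 + 1) < 1 := by
      have hdx1 : W.valuation (dx - dy) ≤ 1 := (W.valuation_le_one_iff _).mpr (sub_mem hx hy)
      have h8 : W.valuation ((dx + dy) * (dx - dy)) < 1 := by
        rw [map_mul]
        calc W.valuation (dx + dy) * W.valuation (dx - dy) ≤ W.valuation (dx + dy) * 1 := by gcongr
          _ < 1 := by simpa using v6
      have h9 : W.valuation (((3 : ℕ) : F) * dx ^ 2) < 1 := by
        rw [map_mul, map_pow]
        have hd1 : W.valuation dx ≤ 1 := (W.valuation_le_one_iff _).mpr hx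
        have hd2 : W.valuation dx ^ 2 ≤ 1 := pow_le_one₀ (by simp) hd1
        calc W.valuation ((3 : ℕ) : F) * W.valuation dx ^ 2 ≤ W.valuation ((3 : ℕ) : F) * 1 := by gcongr
          _ < 1 := by simpa using h3
      have e : dx ^ 2 + 1 = ((3 : ℕ) : F) * dx ^ 2 - (dx + dy) * (dx - dy) := by
        push_cast
        linear_combination (-1) * hadj
      rw [e]
      exact Valuation.map_sub_lt _ h9 h8
    exact hsq dx hx v7
  exact ⟨SimpleGraph.Coloring.mk (fun p => res (p.1 - rep p.1) + res (p.2 - rep p.2)) (fun {p q} h => hcol p q h)⟩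

open Classical in
/-- If the ring of integers of a real algebraic field `F` has a ring homomorphism to the field with
three elements, then the chromatic number of the unit-distance graph of `F²` is `3` or `2` according
as `F` contains an algebraic integer `a` with `(a² + 1) / 4` an algebraic integer or not. -/
theorem result (F : IntermediateField ℚ ℝ) (hF : Algebra.IsAlgebraic ℚ F)
    (h3 : Nonempty (integralClosure ℤ F →+* ZMod 3)) :
    (unitDistGraph F).chromaticNumber =
      if ∃ a : F, IsIntegral ℤ a ∧ IsIntegral ℤ ((a ^ 2 + 1) / 4) then 3 else 2 := by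
  obtain ⟨φ⟩ := h3
  have hle : (unitDistGraph F).chromaticNumber ≤ 3 :=
    SimpleGraph.chromaticNumber_le_iff_colorable.mpr (three_colorable F hF φ)
  split_ifs with h
  · obtain ⟨a, ha, hb⟩ := h
    apply le_antisymm hle
    by_contra hlt
    rw [not_le] at hlt
    apply not_two_colorable_of F a ha hb
    rw [← SimpleGraph.chromaticNumber_le_iff_colorable]
    rw [show (3 : ℕ∞) = 2 + 1 by norm_num] at hlt
    exact Order.le_of_lt_add_one hlt
  · apply le_antisymm
    · exact SimpleGraph.chromaticNumber_le_iff_colorable.mpr (two_colorable_of_no F hF h)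
    · have : (unitDistGraph F).Adj (0, 0) (1, 0) := by
        show ((0 : F) - 1) ^ 2 + ((0 : F) - 0) ^ 2 = 1
        ring
      exact SimpleGraph.two_le_chromaticNumber_of_adj this

end Pool.Agent.Results.MP_8b8716_co.ThreeValue
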